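import Pool.Agent.Work.MP_c51d14_co.Basic
import Pool.Agent.Work.MP_c51d14_co.Interface

/-!
# STAR: tuples of disjoint faces avoiding `K` are exact in small sizes
-/

set_option autoImplicit false

namespace Pool.Agent.TP

open Finset

theorem stmt_Star (hFilt : Stmt_Filt) (hTensor : Stmt_Tensor) (hPi : Stmt_PiSucc)
    (hCxTup : Stmt_CxTup) (hCxFace : Stmt_CxFace) (hLB : Stmt_LB) (hLin : Stmt_Lin) :
    Stmt_Star := by
  classical
  intro ι E _ _ _ _ v s
  induction s with
  | zero =>
    intro Z K n _ _ h
    exfalso
    have h1 : un Z = (∅ : Set ι) := by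
      ext j
      simp only [un, Set.mem_ofPred_eq, Set.mem_empty_iff_false, iff_false, not_exists]
      intro i
      exact i.elim0
    rw [h1, rk_empty] at h
    omega
  | succ s ih =>
    intro Z K n hemp hZ hn
    set Z' : Fin s → Finset ι := fun i => Z i.castSucc with hZ'
    set Zs : Finset ι := Z (Fin.last s) with hZs
    set W : Set ι := un Z' with hW
    refine hFilt _ (Set ι) ((fInc v).pi (s + 1)) (Tup v Z K)
      (fun F => (F (Fin.last s) : Set ι) ∩ W) n (hCxTup ι E v (s + 1) Z K) ?_ ?_
    · intro x _ y _ hd j hj
      exact ⟨pi_fInc_d_le hd (Fin.last s) hj.1, hj.2⟩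
    · intro S
      have key : ∀ w : Finset (Fin (s + 1) → Finset ι), (∀ x, x ∈ w ↔ x ∈ Tup v Z K ∧
          (x (Fin.last s) : Set ι) ∩ W = S) → ((fInc v).pi (s + 1)).Exact w n := by
        intro w hw
        rcases w.eq_empty_or_nonempty with h0 | ⟨x₀, hx₀⟩
        · rw [h0]
          intro c _ _
          exact ⟨0, fun x hx => absurd hx (notMem_empty x), fun y hy => absurd hy (notMem_empty y)⟩
        rw [hw, mem_Tup] at hx₀
        obtain ⟨⟨hx₀1, hx₀2⟩, hx₀3⟩ := hx₀
        set G₀ := x₀ (Fin.last s) with hG₀
        obtain ⟨hG₀f, hG₀Z, hG₀K⟩ := hx₀1 (Fin.last s)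
        have hSG : S ⊆ (G₀ : Set ι) := by
          intro j hj; rw [← hx₀3] at hj; exact hj.1
        have hSW : S ⊆ W := by
          intro j hj; rw [← hx₀3] at hj; exact hj.2
        have hclG : cl v S ⊆ G₀ := cl_subset hG₀f hSG
        have hclZ : cl v S ⊆ Zs := hclG.trans hG₀Z
        apply hPi _ (fInc v) s (Tup v Z' (K ∪ S)) (Fam v (cl v S) Zs (W ∪ K))
        · intro x
          rw [hw, mem_Tup, mem_Tup, mem_Fam]
          constructor
          · rintro ⟨⟨h1, h2⟩, h3⟩
            have hS : S ⊆ (x (Fin.last s) : Set ι) := by
              intro j hj; rw [← h3] at hj; exact hj.1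
            refine ⟨⟨?_, ?_⟩, (h1 _).1, cl_subset (h1 _).1 hS, (h1 _).2.1, ?_⟩
            · intro i
              refine ⟨(h1 i.castSucc).1, (h1 i.castSucc).2.1, ?_⟩
              rintro j hj (hjK | hjS)
              · exact (h1 i.castSucc).2.2 j hj hjK
              · have h4 := h2 i.castSucc (Fin.last s) (Fin.castSucc_lt_last i).ne
                exact (Finset.disjoint_left.1 h4 hj) (hS hjS)
            · intro i j hij
              exact h2 _ _ fun h => hij (Fin.castSucc_injective s h)
            · rintro j hj (hjW | hjK)
              · apply subset_cl v S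
                rw [← h3]
                exact ⟨hj, hjW⟩
              · exact absurd hjK ((h1 (Fin.last s)).2.2 j hj)
          · rintro ⟨⟨h1, h2⟩, h3, h4, h5, h6⟩
            have hlastK : ∀ j ∈ x (Fin.last s), j ∉ K := fun j hj hjK =>
              hG₀K j (hclG (h6 j hj (Or.inr hjK))) hjK
            have hSeq : (x (Fin.last s) : Set ι) ∩ W = S := by
              apply Set.Subset.antisymm
              · rintro j ⟨hj, hjW⟩
                rw [← hx₀3]
                exact ⟨hclG (h6 j hj (Or.inl hjW)), hjW⟩
              · intro j hj
                exact ⟨h4 (subset_cl v S hj), hSW hj⟩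
            have hdis : ∀ i : Fin s, Disjoint (x i.castSucc) (x (Fin.last s)) := by
              intro i
              rw [Finset.disjoint_left]
              intro j hj hj'
              have hjW : j ∈ W := ⟨i, (h1 i).2.1 hj⟩
              have hjS : j ∈ S := by rw [← hSeq]; exact ⟨hj', hjW⟩
              exact (h1 i).2.2 j hj (Or.inr hjS)
            refine ⟨⟨?_, ?_⟩, hSeq⟩
            · intro i
              refine Fin.lastCases ?_ (fun i => ?_) i
              · exact ⟨h3, h5, hlastK⟩
              · exact ⟨(h1 i).1, (h1 i).2.1, fun j hj hjK => (h1 i).2.2 j hj (Or.inl hjK)⟩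
            · intro i j
              refine Fin.lastCases ?_ (fun i => ?_) i
              · refine Fin.lastCases ?_ (fun j => ?_) j
                · intro h; exact absurd rfl h
                · intro _; exact (hdis j).symm
              · refine Fin.lastCases ?_ (fun j => ?_) j
                · intro _; exact hdis i
                · intro h; exact h2 i j fun h' => h (by rw [h'])
        · -- exactness of the product
          have eA : (K ∪ S) ∩ W = (K ∩ W) ∪ S := by
            ext j
            constructor
            · rintro ⟨h | h, h'⟩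
              · exact Or.inl ⟨h, h'⟩
              · exact Or.inr h
            · rintro (⟨h, h'⟩ | h)
              · exact ⟨Or.inl h, h'⟩
              · exact ⟨Or.inr h, hSW h⟩
          have eB : (cl v S : Set ι) ∪ ((W ∪ K) ∩ (Zs : Set ι))
              = (cl v S : Set ι) ∪ (W ∩ (Zs : Set ι)) ∪ (K ∩ (Zs : Set ι)) := by
            rw [Set.union_inter_distrib_right, Set.union_assoc]
          have eU : un Z = W ∪ (Zs : Set ι) := by
            ext j
            constructor
            · rintro ⟨i, hi⟩
              revert hi
              refine Fin.lastCases ?_ (fun i => ?_) i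
              · intro hi; exact Or.inr hi
              · intro hi; exact Or.inl ⟨i, hi⟩
            · rintro (⟨i, hi⟩ | h)
              · exact ⟨i.castSucc, hi⟩
              · exact ⟨Fin.last s, h⟩
          have eK : K ∩ un Z = (K ∩ W) ∪ (K ∩ (Zs : Set ι)) := by
            rw [eU, Set.inter_union_distrib_left]
          have hlin := hLin E (Submodule.span ℝ (v '' W)) (Submodule.span ℝ (v '' (Zs : Set ι)))
            (Submodule.span ℝ (v '' (K ∩ W))) (Submodule.span ℝ (v '' (K ∩ (Zs : Set ι))))
            (Submodule.span ℝ (v '' (cl v S : Set ι))) (Submodule.span ℝ (v '' S))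
            (Submodule.span ℝ (v '' (W ∩ (Zs : Set ι))))
            (Submodule.span_mono (Set.image_mono Set.inter_subset_right))
            (Submodule.span_mono (Set.image_mono Set.inter_subset_right))
            (Submodule.span_mono (Set.image_mono (Finset.coe_subset.2 hclZ)))
            (Submodule.span_mono (Set.image_mono (subset_cl v S)))
            (Submodule.span_mono (Set.image_mono (Set.subset_inter hSW
              ((subset_cl v S).trans (Finset.coe_subset.2 hclZ)))))
            (Submodule.span_mono (Set.image_mono Set.inter_subset_left))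
            (Submodule.span_mono (Set.image_mono Set.inter_subset_right))
          rw [← Submodule.span_union, ← Set.image_union, ← Submodule.span_union, ← Set.image_union,
            ← Submodule.span_union, ← Set.image_union, ← Submodule.span_union, ← Set.image_union,
            ← Submodule.span_union, ← Set.image_union, ← eU, ← eA, ← eB, ← eK] at hlin
          have hlin' : rk v (un Z) + rk v ((K ∪ S) ∩ W)
              + rk v ((cl v S : Set ι) ∪ ((W ∪ K) ∩ (Zs : Set ι)))
              ≤ rk v W + rk v (Zs : Set ι) + rk v (cl v S : Set ι) + rk v (K ∩ un Z) := hlin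
          have hA : rk v ((K ∪ S) ∩ W) ≤ rk v W := rk_mono v Set.inter_subset_right
          have hB : rk v ((cl v S : Set ι) ∪ ((W ∪ K) ∩ (Zs : Set ι))) ≤ rk v (Zs : Set ι) :=
            rk_mono v (Set.union_subset (Finset.coe_subset.2 hclZ) Set.inter_subset_right)
          apply hTensor _ _ _ _ _ _ (rk v W - rk v ((K ∪ S) ∩ W))
            (rk v (Zs : Set ι) + rk v (cl v S : Set ι)
              - rk v ((cl v S : Set ι) ∪ ((W ∪ K) ∩ (Zs : Set ι)))) n
          · exact hCxTup ι E v s Z' (K ∪ S)
          · apply hCxFace ι E v
            · intro F hF; exact (mem_Fam.1 hF).1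
            · intro F hF G hG H hH hFH hHG
              rw [mem_Fam] at hF hG ⊢
              exact ⟨hH, hF.2.1.trans hFH, hHG.trans hG.2.2.1,
                fun j hj hj' => hG.2.2.2 j (hHG hj) hj'⟩
          · intro p hp
            refine ih Z' (K ∪ S) p hemp (fun i => hZ _) ?_
            change p + 1 + rk v ((K ∪ S) ∩ W) ≤ rk v W
            omega
          · intro q hq
            refine hLB ι E v (cl v S) Zs (W ∪ K) q (isFace_cl v S) (hZ _) hclZ ?_
            have e1 : rk v ((cl v S : Set ι) ∪ ((W ∪ K) ∩ (Zs : Set ι))) ≤ rk v (Zs : Set ι) := hB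
            omega
          · omega
      refine key _ fun x => ?_
      rw [mem_filter]

end Pool.Agent.TP
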